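import Pool.Agent.H22.AN.TB3
import Pool.Agent.H80.AN.TargetsA

/-! Board allh (MP_2697e3_an), row CE0: masses of windows with small errors. -/

namespace Pool.Agent.H42.AN

open MeasureTheory Metric Set Filter Topology Pool.Agent.H87.SN Pool.Agent.H87.SH Pool.Agent.H87.AX
  Pool.Agent.H22.AN
open scoped ContDiff RealInnerProductSpace ENNReal

noncomputable section

theorem zp_apply' {d : ℕ} (x : V d) (i : Fin d) : zp x i = x i.succ.succ := rfl

theorem nsq_nonneg' {d m : ℕ} (L : V d →L[ℝ] E m) : 0 ≤ nsq L :=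
  Finset.sum_nonneg fun i _ => by positivity

theorem nzs_nonneg' {d m : ℕ} (L : V d →L[ℝ] E m) : 0 ≤ nzs L :=
  Finset.sum_nonneg fun i _ => by positivity

theorem nzs_le' {d m : ℕ} (L : V d →L[ℝ] E m) : nzs L ≤ nsq L := by
  unfold nzs nsq
  rw [Fin.sum_univ_succ (n := d + 1), Fin.sum_univ_succ (n := d)]
  have h1 : 0 ≤ ‖L (bv (0 : Fin (d + 2)))‖ ^ 2 := by positivity
  have h2 : 0 ≤ ‖L (bv ((0 : Fin (d + 1)).succ))‖ ^ 2 := by positivity
  linarith

theorem norm_split {d : ℕ} (x : V d) : ‖x‖ ^ 2 = rho x ^ 2 + ‖zp x‖ ^ 2 := by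
  unfold rho
  rw [Real.sq_sqrt (by positivity), EuclideanSpace.norm_sq_eq, EuclideanSpace.norm_sq_eq,
    Fin.sum_univ_succ (n := d + 1), Fin.sum_univ_succ (n := d)]
  simp only [Real.norm_eq_abs, sq_abs, zp_apply']
  simp only [Fin.succ_zero_eq_one]
  ring

theorem rho_nonneg' {d : ℕ} (x : V d) : 0 ≤ rho x := Real.sqrt_nonneg _

theorem abs_le_rho {d : ℕ} (x : V d) (j : Fin (d + 2)) (hj : (j : ℕ) < 2) : |x j| ≤ rho x := by
  unfold rho
  apply Real.abs_le_sqrt
  have h : j = 0 ∨ j = 1 := by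
    rcases Nat.lt_or_ge (j : ℕ) 1 with h | h
    · left; apply Fin.ext; rw [Fin.val_zero]; omega
    · right; apply Fin.ext; rw [Fin.val_one]; omega
  rcases h with rfl | rfl
  · nlinarith [sq_nonneg (x 1)]
  · nlinarith [sq_nonneg (x 0)]

theorem cont_rho {d : ℕ} : Continuous (rho (d := d)) := by
  unfold rho; fun_prop

theorem cont_nzs {d m : ℕ} : Continuous (fun L : V d →L[ℝ] E m => nzs L) := by
  unfold nzs; fun_prop

theorem pf_CE0 (hMA1 : T_MA1) (hMA3 : T_MA3) (hBWF : T_BWF) (hCHF : T_CHF) (hMUF : T_MUF) :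
    T_CE0 := by
  intro d
  obtain ⟨C1, hC1, h1⟩ := hMA1 d
  obtain ⟨C3, hC3, h3⟩ := hMA3 d
  obtain ⟨-, C2, hC2, h2⟩ := hBWF d
  obtain ⟨C4, hC4, h4⟩ := hCHF
  refine ⟨(C1 + C3) * 8 ^ (d + 2) + C2 * 8 ^ d, by positivity, ?_⟩
  intro m G hG hst h rc hrc hrch hh
  obtain ⟨-, -, -, hmu, -, -⟩ := hMUF d m G hG
  have hpos : 0 < h := lt_of_lt_of_le hrc hrch
  obtain ⟨-, hch1, -, hch2, -, -, -, -⟩ := h4 d h hpos
  have hG2 : IntegrableOn (fun x => nsq (G x)) (ball (0 : V d) 2) :=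
    (hmu _ measurableSet_ball Subset.rfl).1
  have hM2 : (mu G).real (ball 0 2) = ∫ x in ball (0 : V d) 2, nsq (G x) :=
    (hmu _ measurableSet_ball Subset.rfl).2
  have hsub : ball (0 : V d) (5 / 8) ⊆ ball 0 2 := ball_subset_ball (by norm_num)
  have hnz : IntegrableOn (fun x => nzs (G x)) (ball (0 : V d) (5 / 8)) := by
    refine Integrable.mono' (hG2.mono_set hsub) ?_ ?_
    · exact (cont_nzs.comp_aestronglyMeasurable (hG.1.mono_measure (Measure.restrict_mono hsub le_rfl)))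
    · refine ae_of_all _ fun x => ?_
      rw [Real.norm_eq_abs, abs_of_nonneg (nzs_nonneg' _)]
      exact nzs_le' _
  have hSm : MeasurableSet {x : V d | x ∈ ball (0 : V d) (5 / 8) ∧ rc ≤ rho x} :=
    measurableSet_ball.inter (measurableSet_le measurable_const cont_rho.measurable)
  have hSi : IntegrableOn (fun x => nsq (G x)) {x : V d | x ∈ ball (0 : V d) (5 / 8) ∧ rc ≤ rho x} :=
    hG2.mono_set fun x hx => hsub hx.1
  have hin : ∀ x : V d, rho x < 2 * h → ‖zp x‖ < 1 / 2 → x ∈ ball (0 : V d) (5 / 8) := by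
    intro x hx1 hx2
    rw [mem_ball_zero_iff]
    have e1 := norm_split x
    have e2 := rho_nonneg' x
    have e3 : rho x < 1 / 8 := by linarith
    have e4 := norm_nonneg (zp x)
    have e5 : rho x ^ 2 < (1 / 8) ^ 2 := by nlinarith
    have e6 : ‖zp x‖ ^ 2 < (1 / 2) ^ 2 := by nlinarith
    have e7 : ‖x‖ ^ 2 < (5 / 8) ^ 2 := by rw [e1]; norm_num at e5 e6 ⊢; linarith
    exact lt_of_pow_lt_pow_left₀ 2 (by norm_num) e7
  have hEz : Ez G h (1 / 2) ≤ ∫ x in ball (0 : V d) (5 / 8), nzs (G x) := by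
    refine setIntegral_mono_set hnz (ae_of_all _ fun x => nzs_nonneg' _)
      (LE.le.eventuallyLE fun x hx => hin x hx.1 hx.2)
  have hIn : In G h (1 / 2) ≤ oc G rc (5 / 8) := by
    refine setIntegral_mono_set hSi (ae_of_all _ fun x => nsq_nonneg' _)
      (LE.le.eventuallyLE fun x hx => ⟨hin x hx.2.1 hx.2.2, ?_⟩)
    exact hrch.trans hx.1.le
  have hEz0 : 0 ≤ Ez G h (1 / 2) := integral_nonneg fun x => nzs_nonneg' _
  have hIn0 : 0 ≤ In G h (1 / 2) := integral_nonneg fun x => nsq_nonneg' _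
  have hA0 : 0 ≤ ∫ x in ball (0 : V d) (5 / 8), nzs (G x) := integral_nonneg fun x => nzs_nonneg' _
  have hB0 : 0 ≤ oc G rc (5 / 8) := integral_nonneg fun x => nsq_nonneg' _
  have hM0 : 0 ≤ (mu G).real (ball 0 2) := measureReal_nonneg
  set A := ∫ x in ball (0 : V d) (5 / 8), nzs (G x) with hA
  set B := oc G rc (5 / 8) with hB
  set M := (mu G).real (ball 0 2) with hM
  have hp : (0 : ℝ) < 8 := by norm_num
  -- the form of the errors
  have key : ∀ C' : ℝ, 0 ≤ C' → C' ≤ C1 + C3 →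
      C' / ((h / 8) ^ (d + 2) * h) * (Ez G h (1 / 2) + In G h (1 / 2)) ≤
      ((C1 + C3) * 8 ^ (d + 2) + C2 * 8 ^ d) / h ^ (d + 3) * (A + B + rc * M) := by
    intro C' hC' hC''
    have e1 : C' / ((h / 8) ^ (d + 2) * h) = C' * 8 ^ (d + 2) / h ^ (d + 3) := by
      rw [div_pow]; field_simp; ring
    rw [e1]
    have e2 : C' * 8 ^ (d + 2) / h ^ (d + 3) ≤
        ((C1 + C3) * 8 ^ (d + 2) + C2 * 8 ^ d) / h ^ (d + 3) := by
      apply div_le_div_of_nonneg_right _ (by positivity)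
      have : C' * 8 ^ (d + 2) ≤ (C1 + C3) * 8 ^ (d + 2) :=
        mul_le_mul_of_nonneg_right hC'' (by positivity)
      have h5 : 0 ≤ C2 * 8 ^ d := by positivity
      linarith
    apply mul_le_mul e2 _ (by positivity) (by positivity)
    have : 0 ≤ rc * M := by positivity
    linarith
  have hw2 : ∀ (j : Fin (d + 2)), (j : ℕ) < 2 → ∀ (z₀ : E d) (t : ℝ), h / 8 ≤ t → t ≤ 1 / 16 →
      ‖z₀‖ ≤ 1 / 4 → |mo G h j z₀ t| ≤
      ((C1 + C3) * 8 ^ (d + 2) + C2 * 8 ^ d) / h ^ (d + 3) * (A + B + rc * M) := by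
    intro j hj z₀ t ht1 ht2 hz
    have ht : 0 < t := by linarith
    obtain ⟨-, hb1, hb2, -⟩ := h2 z₀ t ht
    have hind : IntegrableOn (fun x => ({x : V d | x ∈ ball (0 : V d) (5 / 8) ∧ rc ≤ rho x}).indicator
        (fun x => nsq (G x)) x) (ball (0 : V d) 2) := by
      exact hG2.indicator hSm
    have hdom : IntegrableOn (fun x => C2 / t ^ d * (rc * nsq (G x) +
        ({x : V d | x ∈ ball (0 : V d) (5 / 8) ∧ rc ≤ rho x}).indicator
        (fun x => nsq (G x)) x)) (ball (0 : V d) 2) :=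
      ((hG2.const_mul rc).add hind).const_mul _
    have hle : |mo G h j z₀ t| ≤ ∫ x in ball (0 : V d) 2, C2 / t ^ d * (rc * nsq (G x) +
        ({x : V d | x ∈ ball (0 : V d) (5 / 8) ∧ rc ≤ rho x}).indicator
        (fun x => nsq (G x)) x) := by
      rw [← Real.norm_eq_abs]
      refine norm_integral_le_of_norm_le hdom (ae_of_all _ fun x => ?_)
      have hn := nsq_nonneg' (G x)
      have hch0 := (hch1 x).1
      have hch := (hch1 x).2
      have hbx := hb1 (zp x)
      have hi0 : 0 ≤ ({x : V d | x ∈ ball (0 : V d) (5 / 8) ∧ rc ≤ rho x}).indicator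
          (fun x => nsq (G x)) x := indicator_nonneg (fun x _ => nsq_nonneg' _) x
      rw [Real.norm_eq_abs, abs_mul, abs_mul, abs_mul, abs_of_nonneg hch0, abs_of_nonneg hbx.1,
        abs_of_nonneg hn]
      by_cases hr : 2 * h ≤ rho x
      · rw [hch2 x hr]
        simp only [zero_mul]
        positivity
      by_cases hzz : t ≤ ‖zp x - z₀‖
      · rw [hb2 _ hzz]
        simp only [zero_mul, mul_zero]
        positivity
      have hx : x ∈ ball (0 : V d) (5 / 8) := by
        apply hin x (lt_of_not_ge hr)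
        have h6 : ‖zp x‖ ≤ ‖zp x - z₀‖ + ‖z₀‖ := by
          simpa using norm_add_le (zp x - z₀) z₀
        linarith [lt_of_not_ge hzz]
      have hxj := abs_le_rho x j hj
      have h7 : chh h x * bw z₀ t (zp x) ≤ C2 / t ^ d := by
        calc chh h x * bw z₀ t (zp x) ≤ 1 * (C2 / t ^ d) :=
              mul_le_mul hch hbx.2 hbx.1 zero_le_one
          _ = C2 / t ^ d := one_mul _
      have h8 : |x j| * nsq (G x) ≤ rc * nsq (G x) +
          ({x : V d | x ∈ ball (0 : V d) (5 / 8) ∧ rc ≤ rho x}).indicator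
          (fun x => nsq (G x)) x := by
        by_cases hrr : rc ≤ rho x
        · rw [indicator_of_mem (show x ∈ {x : V d | x ∈ ball (0 : V d) (5 / 8) ∧ rc ≤ rho x} from
            ⟨hx, hrr⟩)]
          have h9 : |x j| ≤ 1 := by
            have := lt_of_not_ge hr
            linarith
          have h10 : |x j| * nsq (G x) ≤ 1 * nsq (G x) := mul_le_mul_of_nonneg_right h9 hn
          have h11 : 0 ≤ rc * nsq (G x) := by positivity
          linarith
        · have h9 : |x j| ≤ rc := hxj.trans (le_of_not_ge hrr)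
          have h10 : |x j| * nsq (G x) ≤ rc * nsq (G x) := mul_le_mul_of_nonneg_right h9 hn
          linarith
      calc chh h x * bw z₀ t (zp x) * |x j| * nsq (G x)
          = (chh h x * bw z₀ t (zp x)) * (|x j| * nsq (G x)) := by ring
        _ ≤ _ := mul_le_mul h7 h8 (by positivity) (by positivity)
    have hval : (∫ x in ball (0 : V d) 2, C2 / t ^ d * (rc * nsq (G x) +
        ({x : V d | x ∈ ball (0 : V d) (5 / 8) ∧ rc ≤ rho x}).indicator
        (fun x => nsq (G x)) x)) = C2 / t ^ d * (rc * M + B) := by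
      rw [integral_const_mul, integral_add (hG2.const_mul rc) hind, integral_const_mul,
        setIntegral_indicator hSm, ← hM2]
      congr 3
      congr 1
      ext x
      constructor
      · rintro ⟨-, hx⟩
        exact hx
      · intro hx
        exact ⟨hsub hx.1, hx⟩
    rw [hval] at hle
    refine hle.trans ?_
    have e3 : C2 / t ^ d ≤ C2 * 8 ^ d / h ^ (d + 3) := by
      have e4 : h ^ (d + 3) ≤ (8 * t) ^ d := by
        calc h ^ (d + 3) ≤ h ^ d := pow_le_pow_of_le_one hpos.le (by linarith) (by omega)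
          _ ≤ (8 * t) ^ d := pow_le_pow_left₀ hpos.le (by linarith) d
      rw [div_le_div_iff₀ (by positivity) (by positivity)]
      calc C2 * h ^ (d + 3) ≤ C2 * (8 * t) ^ d := mul_le_mul_of_nonneg_left e4 hC2.le
        _ = C2 * 8 ^ d * t ^ d := by rw [mul_pow]; ring
    have e5 : C2 * 8 ^ d / h ^ (d + 3) ≤
        ((C1 + C3) * 8 ^ (d + 2) + C2 * 8 ^ d) / h ^ (d + 3) := by
      apply div_le_div_of_nonneg_right _ (by positivity)
      have h5 : 0 ≤ (C1 + C3) * 8 ^ (d + 2) := by positivity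
      linarith
    apply mul_le_mul (e3.trans e5) _ (by positivity) (by positivity)
    linarith
  refine ⟨?_, ?_, ?_⟩
  · intro z₀ t ht1 ht2 hz
    refine le_trans (h1 m G hG hst h (1 / 2) (h / 8) hpos (by linarith) (by positivity) (by norm_num)
      z₀ 0 t (1 / 16) ht1 (by linarith) (by linarith) (by rw [norm_zero]; norm_num)) ?_
    exact key C1 hC1 (by linarith)
  · intro z₀ t ht1 ht2 hz
    have e0 : ms G h 0 (1 / 16) * (0 + ⟪(0 : E d), z₀⟫) = 0 := by simp
    rw [e0, sub_zero, sub_zero]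
    exact ⟨hw2 0 (by simp) z₀ t ht1 ht2 hz, hw2 1 (by simp) z₀ t ht1 ht2 hz⟩
  · intro z₀ t ht1 ht2 hz a
    refine le_trans (h3 m G hG hst h (1 / 2) (h / 8) hpos (by linarith) (by positivity) (by norm_num)
      z₀ t a ht1 (by linarith)) ?_
    exact key C3 hC3 (by linarith)

end

end Pool.Agent.H42.AN
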